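import Mathlib
import Pool.Agent.Y745.SW.DefsA

set_option autoImplicit false

/-! SW project (helper745), job GM: the method of moments. -/

namespace Pool.Agent.Y586.SW

open Filter Topology MeasureTheory Complex ProbabilityTheory

noncomputable section

/-- Taylor polynomial of `e^{iy}` -/
def Sm (m : ℕ) (y : ℝ) : ℂ := ∑ j ∈ Finset.range m, (I * y) ^ j / (j.factorial : ℂ)

lemma hasDerivAt_Sm (m : ℕ) (y : ℝ) : HasDerivAt (Sm (m + 1)) (I * Sm m y) y := by
  induction m with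
  | zero =>
    have : Sm (0 + 1) = fun _ => (1:ℂ) := by
      funext y; simp [Sm]
    rw [this]
    simpa [Sm] using hasDerivAt_const y (1:ℂ)
  | succ m ih =>
    have e : Sm (m + 1 + 1) = fun y => Sm (m + 1) y + (I * (y:ℝ)) ^ (m + 1) / ((m + 1).factorial : ℂ) := by
      funext y; simp [Sm, Finset.sum_range_succ]
    have h1 : HasDerivAt (fun y : ℝ => (I * (y : ℂ)) ^ (m + 1) / ((m + 1).factorial : ℂ))
        (((m + 1 : ℕ) : ℂ) * (I * y) ^ m * I / ((m + 1).factorial : ℂ)) y := by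
      have h2 : HasDerivAt (fun y : ℝ => I * (y : ℂ)) (I * 1) y :=
        (ofRealCLM.hasDerivAt (x := y)).const_mul I
      have := (h2.pow (m+1)).div_const ((m + 1).factorial : ℂ)
      simpa using this
    rw [e]
    have h3 := ih.add h1
    have e2 : I * Sm m y + ((m + 1 : ℕ) : ℂ) * (I * y) ^ m * I / ((m + 1).factorial : ℂ) =
        I * Sm (m + 1) y := by
      have e3 : Sm (m + 1) y = Sm m y + (I * y) ^ m / (m.factorial : ℂ) := by
        simp [Sm, Finset.sum_range_succ]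
      rw [e3, Nat.factorial_succ]
      have h4 : (m.factorial : ℂ) ≠ 0 := by exact_mod_cast m.factorial_ne_zero
      have h5 : ((m + 1 : ℕ) : ℂ) ≠ 0 := by exact_mod_cast Nat.succ_ne_zero m
      push_cast at h5 ⊢
      field_simp
    rw [← e2]
    exact h3

lemma tay_pos (m : ℕ) : ∀ y : ℝ, 0 ≤ y → ‖cexp (I * y) - Sm m y‖ ≤ y ^ m / (m.factorial : ℝ) := by
  induction m with
  | zero =>
    intro y _
    have : ‖cexp (I * y)‖ = 1 := by rw [mul_comm]; exact norm_exp_ofReal_mul_I y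
    simp [Sm, this]
  | succ m ih =>
    intro y hy
    have hd : ∀ x : ℝ, HasDerivAt (fun x : ℝ => cexp (I * x) - Sm (m + 1) x)
        (I * (cexp (I * x) - Sm m x)) x := by
      intro x
      have h2 : HasDerivAt (fun y : ℝ => I * (y : ℂ)) (I * 1) x :=
        (ofRealCLM.hasDerivAt (x := x)).const_mul I
      have h3 := h2.cexp.sub (hasDerivAt_Sm m x)
      have e : cexp (I * x) * (I * 1) - I * Sm m x = I * (cexp (I * x) - Sm m x) := by ring
      rw [← e]; exact h3
    have hB : ∀ x : ℝ, HasDerivAt (fun x : ℝ => x ^ (m + 1) / ((m + 1).factorial : ℝ))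
        (x ^ m / (m.factorial : ℝ)) x := by
      intro x
      have h1 := (hasDerivAt_pow (m + 1) x).div_const ((m + 1).factorial : ℝ)
      have e : (((m + 1 : ℕ) : ℝ) * x ^ (m + 1 - 1)) / ((m + 1).factorial : ℝ) = x ^ m / (m.factorial : ℝ) := by
        rw [Nat.factorial_succ, Nat.add_sub_cancel]
        have h4 : (m.factorial : ℝ) ≠ 0 := by exact_mod_cast m.factorial_ne_zero
        have h5 : ((m + 1 : ℕ) : ℝ) ≠ 0 := by exact_mod_cast Nat.succ_ne_zero m
        push_cast at h5 ⊢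
        field_simp
      rw [← e]; exact h1
    refine image_norm_le_of_norm_deriv_right_le_deriv_boundary (a := 0) (b := y)
      (f := fun x : ℝ => cexp (I * x) - Sm (m + 1) x) (f' := fun x => I * (cexp (I * x) - Sm m x))
      (B := fun x : ℝ => x ^ (m + 1) / ((m + 1).factorial : ℝ)) (B' := fun x => x ^ m / (m.factorial : ℝ))
      (fun x _ => (hd x).continuousAt.continuousWithinAt) (fun x _ => (hd x).hasDerivWithinAt) ?_ hB ?_
      (Set.right_mem_Icc.2 hy)
    · simp [Sm, Finset.sum_range_succ']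
    · intro x hx
      rw [norm_mul, norm_I, one_mul]
      exact ih x hx.1

lemma tay (m : ℕ) (y : ℝ) : ‖cexp (I * y) - Sm m y‖ ≤ |y| ^ m / (m.factorial : ℝ) := by
  rcases le_total 0 y with h | h
  · rw [abs_of_nonneg h]; exact tay_pos m y h
  · have h1 := tay_pos m (-y) (by linarith)
    rw [abs_of_nonpos h]
    refine le_trans (le_of_eq ?_) h1
    have e : (cexp (I * ((-y : ℝ) : ℂ)) - Sm m (-y)) = (starRingEnd ℂ) (cexp (I * y) - Sm m y) := by
      rw [map_sub, ← exp_conj, map_mul, conj_I, conj_ofReal]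
      congr 1
      · congr 1; push_cast; ring
      · unfold Sm
        rw [map_sum]
        refine Finset.sum_congr rfl fun j _ => ?_
        rw [map_div₀, map_pow, map_mul, conj_I, conj_ofReal, map_natCast]
        congr 2; push_cast; ring
    rw [e, RCLike.norm_conj]

/-- the moments of the Gaussian law -/
def gm (m : ℕ) : ℝ := if Even m then (m.factorial : ℝ) / (2 ^ (m / 2) * ((m / 2).factorial : ℝ)) else 0

lemma sum_gm (s : ℝ) (K : ℕ) :
    ∑ j ∈ Finset.range (2 * K), (I * s) ^ j / (j.factorial : ℂ) * (gm j : ℂ) =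
      ∑ j ∈ Finset.range K, ((-(s ^ 2) / 2 : ℝ) : ℂ) ^ j / (j.factorial : ℂ) := by
  induction K with
  | zero => simp
  | succ K ih =>
    rw [show 2 * (K + 1) = 2 * K + 1 + 1 by ring, Finset.sum_range_succ, Finset.sum_range_succ, ih,
      Finset.sum_range_succ]
    have e1 : gm (2 * K + 1) = 0 := by
      unfold gm; rw [if_neg]; exact Nat.not_even_iff_odd.2 ⟨K, rfl⟩
    have e2 : gm (2 * K) = ((2 * K).factorial : ℝ) / (2 ^ K * (K.factorial : ℝ)) := by
      unfold gm; rw [if_pos ⟨K, by ring⟩, Nat.mul_div_cancel_left K (by norm_num)]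
    rw [e1, e2]
    have h4 : (K.factorial : ℂ) ≠ 0 := by exact_mod_cast K.factorial_ne_zero
    have h5 : ((2 * K).factorial : ℂ) ≠ 0 := by exact_mod_cast (2 * K).factorial_ne_zero
    have h6 : (I * (s:ℂ)) ^ (2 * K) = (-(s:ℂ) ^ 2) ^ K := by
      rw [pow_mul, mul_pow, I_sq]; ring_nf
    rw [h6]
    push_cast
    rw [div_pow]
    field_simp
    ring

lemma sum_gm_tendsto (s : ℝ) :
    Tendsto (fun K : ℕ => ∑ j ∈ Finset.range (2 * K), (I * s) ^ j / (j.factorial : ℂ) * (gm j : ℂ)) atTop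
      (𝓝 (cexp ((-(s ^ 2) / 2 : ℝ) : ℂ))) := by
  simp_rw [sum_gm]
  have h := NormedSpace.expSeries_div_hasSum_exp (𝔸 := ℂ) ((-(s ^ 2) / 2 : ℝ) : ℂ)
  rw [← Complex.exp_eq_exp_ℂ] at h
  exact h.tendsto_sum_nat

/-- the hypotheses -/
structure Hy (μ : ℕ → Measure ℝ) (f : ℕ → ℝ → ℂ) (Z : ℝ) : Prop where
  Z0 : 0 ≤ Z
  fin : ∀ n, IsFiniteMeasure (μ n)
  meas : ∀ n, Measurable (f n)
  int : ∀ n k, Integrable (fun x => ‖f n x‖ ^ k) (μ n)
  lim : ∀ k l : ℕ, Tendsto (fun n => ∫ x, f n x ^ k * (starRingEnd ℂ) (f n x) ^ l ∂(μ n)) atTop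
    (𝓝 (if k = l then (k.factorial : ℂ) * (Z : ℂ) else 0))

/-- the real variable -/
def X (f : ℕ → ℝ → ℂ) (n : ℕ) (x : ℝ) : ℝ := Real.sqrt 2 * (f n x).re

variable {μ : ℕ → Measure ℝ} {f : ℕ → ℝ → ℂ} {Z : ℝ}

lemma int_kl (h : Hy μ f Z) (n k l : ℕ) :
    Integrable (fun x => f n x ^ k * (starRingEnd ℂ) (f n x) ^ l) (μ n) := by
  have hm : Measurable (fun x => f n x ^ k * (starRingEnd ℂ) (f n x) ^ l) :=
    ((h.meas n).pow_const k).mul ((Complex.continuous_conj.measurable.comp (h.meas n)).pow_const l)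
  refine (h.int n (k + l)).mono' hm.aestronglyMeasurable ?_
  refine Eventually.of_forall fun x => ?_
  rw [norm_mul, norm_pow, norm_pow, RCLike.norm_conj, pow_add]

lemma X_meas (h : Hy μ f Z) (n : ℕ) : Measurable (X f n) :=
  (Complex.measurable_re.comp (h.meas n)).const_mul _

lemma X_int (h : Hy μ f Z) (n k : ℕ) : Integrable (fun x => X f n x ^ k) (μ n) := by
  refine ((h.int n k).const_mul (Real.sqrt 2 ^ k)).mono' ((X_meas h n).pow_const k).aestronglyMeasurable ?_
  refine Eventually.of_forall fun x => ?_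
  rw [Real.norm_eq_abs, abs_pow]
  unfold X
  rw [abs_mul, mul_pow, abs_of_nonneg (Real.sqrt_nonneg 2)]
  gcongr
  exact abs_re_le_norm _

lemma X_pow (n k : ℕ) (x : ℝ) : ((X f n x : ℝ) : ℂ) ^ k = ((Real.sqrt 2 / 2 : ℝ) : ℂ) ^ k *
    ∑ j ∈ Finset.range (k + 1), (f n x ^ j * (starRingEnd ℂ) (f n x) ^ (k - j)) * (k.choose j : ℂ) := by
  have h1 := add_pow (f n x) ((starRingEnd ℂ) (f n x)) k
  rw [← h1, ← mul_pow]
  congr 1
  unfold X
  have := re_eq_add_conj (f n x)
  push_cast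
  rw [this]
  ring

lemma mom_lim (h : Hy μ f Z) (k : ℕ) : Tendsto (fun n => ∫ x, X f n x ^ k ∂(μ n)) atTop (𝓝 (Z * gm k)) := by
  have h1 : ∀ n, ((∫ x, X f n x ^ k ∂(μ n) : ℝ) : ℂ) = ((Real.sqrt 2 / 2 : ℝ) : ℂ) ^ k *
      ∑ j ∈ Finset.range (k + 1), (∫ x, f n x ^ j * (starRingEnd ℂ) (f n x) ^ (k - j) ∂(μ n)) * (k.choose j : ℂ) := by
    intro n
    rw [← integral_complex_ofReal]
    have : ∀ x, ((X f n x ^ k : ℝ) : ℂ) = ((Real.sqrt 2 / 2 : ℝ) : ℂ) ^ k *
      ∑ j ∈ Finset.range (k + 1), (f n x ^ j * (starRingEnd ℂ) (f n x) ^ (k - j)) * (k.choose j : ℂ) := by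
      intro x; rw [← X_pow]; push_cast; rfl
    simp_rw [this]
    rw [integral_const_mul, integral_finsetSum]
    · congr 1
      refine Finset.sum_congr rfl fun j _ => ?_
      rw [integral_mul_const]
    · intro j _
      exact (int_kl h n j (k - j)).mul_const _
  have h2 : Tendsto (fun n => ((Real.sqrt 2 / 2 : ℝ) : ℂ) ^ k *
      ∑ j ∈ Finset.range (k + 1), (∫ x, f n x ^ j * (starRingEnd ℂ) (f n x) ^ (k - j) ∂(μ n)) * (k.choose j : ℂ))
      atTop (𝓝 (((Real.sqrt 2 / 2 : ℝ) : ℂ) ^ k *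
      ∑ j ∈ Finset.range (k + 1), (if j = k - j then (j.factorial : ℂ) * (Z : ℂ) else 0) * (k.choose j : ℂ))) :=
    (tendsto_finsetSum _ fun j _ => (h.lim j (k - j)).mul_const _).const_mul _
  have h3 : ((Real.sqrt 2 / 2 : ℝ) : ℂ) ^ k *
      ∑ j ∈ Finset.range (k + 1), (if j = k - j then (j.factorial : ℂ) * (Z : ℂ) else 0) * (k.choose j : ℂ) =
      ((Z * gm k : ℝ) : ℂ) := by
    rcases Nat.even_or_odd' k with ⟨c, hc | hc⟩
    · have e1 : ∀ j ∈ Finset.range (k + 1), (if j = k - j then (j.factorial : ℂ) * (Z : ℂ) else 0) * (k.choose j : ℂ) =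
          if j = c then (c.factorial : ℂ) * (Z : ℂ) * (k.choose c : ℂ) else 0 := by
        intro j hj
        rw [Finset.mem_range] at hj
        by_cases hjc : j = c
        · subst hjc; rw [if_pos (by omega), if_pos rfl]
        · rw [if_neg (by omega), if_neg hjc, zero_mul]
      rw [Finset.sum_congr rfl e1, Finset.sum_ite_eq' (Finset.range (k + 1)) c, if_pos (by rw [Finset.mem_range]; omega)]
      have e2 : gm k = (k.factorial : ℝ) / (2 ^ c * (c.factorial : ℝ)) := by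
        unfold gm; rw [if_pos ⟨c, by omega⟩, show k / 2 = c by omega]
      have e3 : (Real.sqrt 2 / 2 : ℝ) ^ k = 1 / 2 ^ c := by
        rw [hc, pow_mul, div_pow, Real.sq_sqrt (by norm_num), ← one_div_pow]; norm_num
      have e4 : (k.choose c : ℝ) * (c.factorial : ℝ) * (c.factorial : ℝ) = (k.factorial : ℝ) := by
        have := Nat.choose_mul_factorial_mul_factorial (n := k) (k := c) (by omega)
        rw [show k - c = c by omega] at this
        exact_mod_cast this
      have h4 : (c.factorial : ℝ) ≠ 0 := by exact_mod_cast c.factorial_ne_zero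
      have e5 : (Real.sqrt 2 / 2 : ℝ) ^ k * ((c.factorial : ℝ) * Z * (k.choose c : ℝ)) = Z * gm k := by
        rw [e2, e3, ← e4]
        field_simp
      rw [← e5]
      push_cast
      ring
    · have e1 : ∀ j ∈ Finset.range (k + 1), (if j = k - j then (j.factorial : ℂ) * (Z : ℂ) else 0) * (k.choose j : ℂ) =
          0 := by
        intro j hj
        rw [Finset.mem_range] at hj
        rw [if_neg (by omega), zero_mul]
      rw [Finset.sum_eq_zero e1]
      have e2 : gm k = 0 := by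
        unfold gm; rw [if_neg]; exact Nat.not_even_iff_odd.2 ⟨c, hc⟩
      rw [e2]; simp
  rw [h3] at h2
  have h4 : Tendsto (fun n => ((∫ x, X f n x ^ k ∂(μ n) : ℝ) : ℂ)) atTop (𝓝 ((Z * gm k : ℝ) : ℂ)) := by
    simp_rw [h1]; exact h2
  have h5 := (Complex.continuous_re.tendsto _).comp h4
  simp only [Function.comp_def, ofReal_re] at h5
  exact h5

lemma exp_int (h : Hy μ f Z) (s : ℝ) (n : ℕ) : Integrable (fun x => cexp (I * ((s * X f n x : ℝ) : ℂ))) (μ n) := by
  have := h.fin n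
  have hm : Measurable (fun x => cexp (I * ((s * X f n x : ℝ) : ℂ))) :=
    Complex.measurable_exp.comp ((Complex.measurable_ofReal.comp ((X_meas h n).const_mul s)).const_mul I)
  refine (integrable_const (1:ℝ)).mono' hm.aestronglyMeasurable ?_
  refine Eventually.of_forall fun x => ?_
  rw [mul_comm]; exact (norm_exp_ofReal_mul_I _).le

lemma char_approx (h : Hy μ f Z) (s : ℝ) (K n : ℕ) :
    ‖(∫ x, cexp (I * ((s * X f n x : ℝ) : ℂ)) ∂(μ n)) -
      ∑ j ∈ Finset.range (2 * K), (I * s) ^ j / (j.factorial : ℂ) * ((∫ x, X f n x ^ j ∂(μ n) : ℝ) : ℂ)‖ ≤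
      s ^ (2 * K) / ((2 * K).factorial : ℝ) * ∫ x, X f n x ^ (2 * K) ∂(μ n) := by
  have := h.fin n
  have hS : Integrable (fun x => Sm (2 * K) (s * X f n x)) (μ n) := by
    unfold Sm
    refine integrable_finsetSum _ fun j _ => ?_
    have h1 : Integrable (fun x => (I * s) ^ j / (j.factorial : ℂ) * ((X f n x ^ j : ℝ) : ℂ)) (μ n) :=
      ((X_int h n j).ofReal (𝕜 := ℂ)).const_mul ((I * s) ^ j / (j.factorial : ℂ))
    refine h1.congr (Eventually.of_forall fun x => ?_)
    simp only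
    push_cast
    ring
  have e1 : ∫ x, Sm (2 * K) (s * X f n x) ∂(μ n) =
      ∑ j ∈ Finset.range (2 * K), (I * s) ^ j / (j.factorial : ℂ) * ((∫ x, X f n x ^ j ∂(μ n) : ℝ) : ℂ) := by
    unfold Sm
    rw [integral_finsetSum]
    · refine Finset.sum_congr rfl fun j _ => ?_
      rw [← integral_complex_ofReal, ← integral_const_mul]
      congr 1
      funext x
      push_cast
      ring
    · intro j _
      have h1 : Integrable (fun x => (I * s) ^ j / (j.factorial : ℂ) * ((X f n x ^ j : ℝ) : ℂ)) (μ n) :=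
        ((X_int h n j).ofReal (𝕜 := ℂ)).const_mul ((I * s) ^ j / (j.factorial : ℂ))
      refine h1.congr (Eventually.of_forall fun x => ?_)
      simp only
      push_cast
      ring
  rw [← e1, ← integral_sub (exp_int h s n) hS]
  have e2 : s ^ (2 * K) / ((2 * K).factorial : ℝ) * ∫ x, X f n x ^ (2 * K) ∂(μ n) =
      ∫ x, s ^ (2 * K) / ((2 * K).factorial : ℝ) * X f n x ^ (2 * K) ∂(μ n) := by
    rw [integral_const_mul]
  rw [e2]
  refine norm_integral_le_of_norm_le ((X_int h n (2 * K)).const_mul _) (Eventually.of_forall fun x => ?_)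
  refine (tay (2 * K) (s * X f n x)).trans (le_of_eq ?_)
  rw [← abs_pow, abs_of_nonneg (by rw [pow_mul]; positivity), mul_pow]
  ring

lemma gm_even (s : ℝ) (K : ℕ) : s ^ (2 * K) / ((2 * K).factorial : ℝ) * (Z * gm (2 * K)) =
    Z * ((s ^ 2 / 2) ^ K / (K.factorial : ℝ)) := by
  have e2 : gm (2 * K) = ((2 * K).factorial : ℝ) / (2 ^ K * (K.factorial : ℝ)) := by
    unfold gm; rw [if_pos ⟨K, by ring⟩, Nat.mul_div_cancel_left K (by norm_num)]
  have h4 : (K.factorial : ℝ) ≠ 0 := by exact_mod_cast K.factorial_ne_zero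
  have h5 : ((2 * K).factorial : ℝ) ≠ 0 := by exact_mod_cast (2 * K).factorial_ne_zero
  rw [e2, div_pow, pow_mul]
  field_simp

lemma char_lim (h : Hy μ f Z) (s : ℝ) :
    Tendsto (fun n => ∫ x, cexp (I * ((s * X f n x : ℝ) : ℂ)) ∂(μ n)) atTop
      (𝓝 (Z * cexp ((-(s ^ 2) / 2 : ℝ) : ℂ))) := by
  rw [Metric.tendsto_atTop]
  intro ε hε
  -- choice of K
  have hB : Tendsto (fun K : ℕ => (Z : ℂ) * ∑ j ∈ Finset.range (2 * K), (I * s) ^ j / (j.factorial : ℂ) * (gm j : ℂ))
      atTop (𝓝 ((Z : ℂ) * cexp ((-(s ^ 2) / 2 : ℝ) : ℂ))) := (sum_gm_tendsto s).const_mul _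
  have hC : Tendsto (fun K : ℕ => Z * ((s ^ 2 / 2) ^ K / (K.factorial : ℝ))) atTop (𝓝 (Z * 0)) :=
    (FloorSemiring.tendsto_pow_div_factorial_atTop (s ^ 2 / 2)).const_mul Z
  rw [mul_zero] at hC
  rw [Metric.tendsto_atTop] at hB hC
  obtain ⟨K1, hK1⟩ := hB (ε / 4) (by positivity)
  obtain ⟨K2, hK2⟩ := hC (ε / 4) (by positivity)
  set K := max K1 K2 with hK
  have hB' := hK1 K (le_max_left _ _)
  have hC' := hK2 K (le_max_right _ _)
  -- limits in n
  have hb : Tendsto (fun n => ∑ j ∈ Finset.range (2 * K), (I * s) ^ j / (j.factorial : ℂ) *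
      ((∫ x, X f n x ^ j ∂(μ n) : ℝ) : ℂ)) atTop
      (𝓝 ((Z : ℂ) * ∑ j ∈ Finset.range (2 * K), (I * s) ^ j / (j.factorial : ℂ) * (gm j : ℂ))) := by
    have e : (Z : ℂ) * ∑ j ∈ Finset.range (2 * K), (I * s) ^ j / (j.factorial : ℂ) * (gm j : ℂ) =
        ∑ j ∈ Finset.range (2 * K), (I * s) ^ j / (j.factorial : ℂ) * ((Z * gm j : ℝ) : ℂ) := by
      rw [Finset.mul_sum]
      refine Finset.sum_congr rfl fun j _ => ?_
      push_cast; ring
    rw [e]
    refine tendsto_finsetSum _ fun j _ => ?_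
    exact ((Complex.continuous_ofReal.tendsto _).comp (mom_lim h j)).const_mul _
  have hc : Tendsto (fun n => s ^ (2 * K) / ((2 * K).factorial : ℝ) * ∫ x, X f n x ^ (2 * K) ∂(μ n)) atTop
      (𝓝 (s ^ (2 * K) / ((2 * K).factorial : ℝ) * (Z * gm (2 * K)))) := (mom_lim h (2 * K)).const_mul _
  rw [gm_even] at hc
  rw [Metric.tendsto_atTop] at hb hc
  obtain ⟨N1, hN1⟩ := hb (ε / 4) (by positivity)
  obtain ⟨N2, hN2⟩ := hc (ε / 4) (by positivity)
  refine ⟨max N1 N2, fun n hn => ?_⟩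
  have h1 := hN1 n ((le_max_left _ _).trans hn)
  have h2 := hN2 n ((le_max_right _ _).trans hn)
  have h3 := char_approx h s K n
  rw [Real.dist_eq] at h2 hC'
  rw [sub_zero] at hC'
  have h4 := (abs_lt.1 h2).2
  have h5 := (abs_lt.1 hC').2
  rw [dist_eq_norm] at h1 hB' ⊢
  calc _ = ‖((∫ x, cexp (I * ((s * X f n x : ℝ) : ℂ)) ∂(μ n)) -
      ∑ j ∈ Finset.range (2 * K), (I * s) ^ j / (j.factorial : ℂ) * ((∫ x, X f n x ^ j ∂(μ n) : ℝ) : ℂ)) +
      ((∑ j ∈ Finset.range (2 * K), (I * s) ^ j / (j.factorial : ℂ) * ((∫ x, X f n x ^ j ∂(μ n) : ℝ) : ℂ)) -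
      (Z : ℂ) * ∑ j ∈ Finset.range (2 * K), (I * s) ^ j / (j.factorial : ℂ) * (gm j : ℂ)) +
      ((Z : ℂ) * ∑ j ∈ Finset.range (2 * K), (I * s) ^ j / (j.factorial : ℂ) * (gm j : ℂ) -
      Z * cexp ((-(s ^ 2) / 2 : ℝ) : ℂ))‖ := by congr 1; ring
    _ ≤ _ := norm_add₃_le
    _ < ε := by linarith

lemma univ_lim (h : Hy μ f Z) : Tendsto (fun n => (μ n).real Set.univ) atTop (𝓝 Z) := by
  have := mom_lim h 0
  simpa [gm] using this

/-- the normalised law -/
def nu (μ : ℕ → Measure ℝ) (f : ℕ → ℝ → ℂ) (n : ℕ) : Measure ℝ :=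
  if (μ n).real Set.univ = 0 then Measure.dirac 0 else ((μ n) Set.univ)⁻¹ • (μ n).map (X f n)

lemma nu_prob (h : Hy μ f Z) (n : ℕ) : IsProbabilityMeasure (nu μ f n) := by
  have := h.fin n
  unfold nu
  split_ifs with h0
  · infer_instance
  · refine ⟨?_⟩
    rw [Measure.smul_apply, Measure.map_apply (X_meas h n) MeasurableSet.univ, Set.preimage_univ, smul_eq_mul]
    refine ENNReal.inv_mul_cancel ?_ (measure_ne_top _ _)
    intro h1
    exact h0 (by rw [Measure.real, h1]; rfl)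

lemma nu_char (h : Hy μ f Z) (n : ℕ) (h0 : (μ n).real Set.univ ≠ 0) (s : ℝ) :
    charFun (nu μ f n) s = ((μ n).real Set.univ : ℂ)⁻¹ * ∫ x, cexp (I * ((s * X f n x : ℝ) : ℂ)) ∂(μ n) := by
  unfold nu
  rw [if_neg h0, charFun_apply_real, integral_smul_measure, integral_map (X_meas h n).aemeasurable]
  · rw [ENNReal.toReal_inv]
    simp only [Measure.real]
    rw [Complex.real_smul]
    push_cast
    congr 1
    congr 1
    funext x
    congr 1
    ring
  · exact (Continuous.measurable (by fun_prop)).aestronglyMeasurable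

lemma pos_case (h : Hy μ f Z) (hZ : 0 < Z) (a b : ℝ) (hab : a < b) :
    Tendsto (fun n => (μ n).real {x | a < X f n x ∧ X f n x < b}) atTop
      (𝓝 (Z * (gaussianReal 0 1).real (Set.Ioo a b))) := by
  have hpos : ∀ᶠ n in atTop, 0 < (μ n).real Set.univ := (univ_lim h).eventually (lt_mem_nhds hZ)
  set P : ℕ → ProbabilityMeasure ℝ := fun n => ⟨nu μ f n, nu_prob h n⟩ with hP
  set G : ProbabilityMeasure ℝ := ⟨gaussianReal 0 1, inferInstance⟩ with hG
  have hlim : Tendsto P atTop (𝓝 G) := by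
    refine ProbabilityMeasure.tendsto_iff_tendsto_charFun.2 fun s => ?_
    have hZc : (Z : ℂ) ≠ 0 := by exact_mod_cast hZ.ne'
    have e1 : charFun (G : Measure ℝ) s = (Z : ℂ)⁻¹ * (Z * cexp ((-(s ^ 2) / 2 : ℝ) : ℂ)) := by
      show charFun (gaussianReal 0 1) s = _
      rw [charFun_gaussianReal, ← mul_assoc, inv_mul_cancel₀ hZc, one_mul]
      congr 1
      push_cast
      ring
    rw [e1]
    have h1 : Tendsto (fun n => ((μ n).real Set.univ : ℂ)⁻¹) atTop (𝓝 (Z : ℂ)⁻¹) :=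
      ((Complex.continuous_ofReal.tendsto _).comp (univ_lim h)).inv₀ hZc
    refine (h1.mul (char_lim h s)).congr' ?_
    filter_upwards [hpos] with n hn
    exact (nu_char h n hn.ne' s).symm
  have hfr : (G : Measure ℝ) (frontier (Set.Ioo a b)) = 0 := by
    show (gaussianReal 0 1) (frontier (Set.Ioo a b)) = 0
    have hna : NullSingletonClass (gaussianReal 0 1) := nullSingletonClass_gaussianReal (by norm_num)
    rw [frontier_Ioo hab]
    exact Set.Finite.measure_zero (Set.toFinite _) _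
  have h2 := ProbabilityMeasure.tendsto_measure_of_null_frontier_of_tendsto' hlim hfr
  have h3 : Tendsto (fun n => (nu μ f n).real (Set.Ioo a b)) atTop (𝓝 ((gaussianReal 0 1).real (Set.Ioo a b))) :=
    (ENNReal.tendsto_toReal (measure_ne_top _ _)).comp h2
  refine ((univ_lim h).mul h3).congr' ?_
  filter_upwards [hpos] with n hn
  have := h.fin n
  unfold nu
  rw [if_neg hn.ne', measureReal_ennreal_smul_apply, ENNReal.toReal_inv]
  have e : ((μ n).map (X f n)).real (Set.Ioo a b) = (μ n).real {x | a < X f n x ∧ X f n x < b} := by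
    rw [Measure.real, Measure.map_apply (X_meas h n) measurableSet_Ioo]
    rfl
  rw [e]
  have e2 : ((μ n) Set.univ).toReal = (μ n).real Set.univ := rfl
  rw [e2, ← mul_assoc, mul_inv_cancel₀ hn.ne', one_mul]

theorem t_GM : Pool.Agent.Y745.SW.P_GM := by
  intro μ f Z hZ hfin hmeas hint hlim a b hab
  have h : Hy μ f Z := ⟨hZ, hfin, hmeas, hint, hlim⟩
  rcases hZ.eq_or_lt with h0 | h0
  · rw [← h0, zero_mul]
    have h1 := univ_lim h
    rw [← h0] at h1
    refine squeeze_zero (fun n => measureReal_nonneg) (fun n => ?_) h1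
    have := hfin n
    exact measureReal_mono (Set.subset_univ _)
  · exact pos_case h h0 a b hab

end

end Pool.Agent.Y586.SW
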